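import Mathlib

namespace Pool.Agent.H.MP_3c4aa6_nt

open Finset Real

noncomputable def e (x : ℝ) : ℂ := Complex.exp (2 * π * Complex.I * (x : ℂ))

lemma e_eq (x : ℝ) : e x = Complex.exp (Complex.I * ((2 * π * x : ℝ) : ℂ)) := by
  unfold e; congr 1; push_cast; ring

lemma norm_e (x : ℝ) : ‖e x‖ = 1 := by
  rw [e_eq, mul_comm, Complex.norm_exp_ofReal_mul_I]

lemma e_add (x y : ℝ) : e (x + y) = e x * e y := by
  unfold e; rw [← Complex.exp_add]; congr 1; push_cast; ring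

lemma e_zero : e 0 = 1 := by simp [e]

lemma e_int (m : ℤ) : e m = 1 := by
  unfold e
  have := Complex.exp_int_mul_two_pi_mul_I m
  rw [← this]; congr 1; push_cast; ring

lemma e_add_int (x : ℝ) (m : ℤ) : e (x + m) = e x := by rw [e_add, e_int, mul_one]

lemma e_conj (x : ℝ) : (starRingEnd ℂ) (e x) = e (-x) := by
  unfold e
  rw [← Complex.exp_conj]; congr 1
  simp only [map_mul, Complex.conj_ofReal, Complex.conj_I, map_ofNat]
  push_cast; ring

lemma e_nat_mul (x : ℝ) (k : ℕ) : e (x * k) = e x ^ k := by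
  induction k with
  | zero => simp [e_zero]
  | succ k ih => rw [pow_succ, ← ih, ← e_add]; congr 1; push_cast; ring

lemma norm_e_sub_one_le (x : ℝ) : ‖e x - 1‖ ≤ 2 * π * |x| := by
  rw [e_eq]
  refine (Real.norm_exp_I_mul_ofReal_sub_one_le).trans ?_
  rw [Real.norm_eq_abs, abs_mul, abs_of_pos (by positivity : (0:ℝ) < 2 * π)]

lemma norm_e_sub_e_le (x y : ℝ) : ‖e x - e y‖ ≤ 2 * π * |x - y| := by
  have : e x - e y = e y * (e (x - y) - 1) := by
    rw [mul_sub, ← e_add, mul_one]; congr 2; ring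
  rw [this, norm_mul, norm_e, one_mul]; exact norm_e_sub_one_le _

lemma le_norm_e_sub_one (y : ℝ) (hy : |y| ≤ 1 / 2) : 4 * |y| ≤ ‖e y - 1‖ := by
  rw [e_eq, Complex.norm_exp_I_mul_ofReal_sub_one, Real.norm_eq_abs, abs_mul]
  have hp := Real.pi_pos
  have h1 : |π * y| ≤ π / 2 := by
    rw [abs_mul, abs_of_pos hp]; nlinarith
  have h2 := Real.mul_abs_le_abs_sin h1
  have h3 : 2 * π * y / 2 = π * y := by ring
  rw [h3]
  have h4 : 2 / π * |π * y| = 2 * |y| := by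
    rw [abs_mul, abs_of_pos hp]; field_simp
  rw [h4] at h2
  have : |(2:ℝ)| = 2 := by norm_num
  rw [this]; linarith

/-- geometric sum bound -/
lemma geom_bound (x : ℝ) (M : ℕ) :
    2 * |x - round x| * ‖∑ k ∈ range M, e (x * k)‖ ≤ 1 := by
  set y := x - round x with hy
  have hy2 : |y| ≤ 1 / 2 := abs_sub_round x
  have h1 : ∀ k : ℕ, e (x * k) = e y ^ k := by
    intro k
    rw [e_nat_mul]; congr 1
    have : x = y + (round x : ℤ) := by rw [hy]; ring
    conv_lhs => rw [this]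
    exact e_add_int _ _
  simp_rw [h1]
  have h2 : (∑ k ∈ range M, e y ^ k) * (e y - 1) = e y ^ M - 1 := geom_sum_mul _ _
  have h3 : ‖e y ^ M - 1‖ ≤ 2 := by
    refine (norm_sub_le _ _).trans ?_
    rw [norm_pow, norm_e]; norm_num
  have h4 := le_norm_e_sub_one y hy2
  have h5 : ‖∑ k ∈ range M, e y ^ k‖ * ‖e y - 1‖ ≤ 2 := by rw [← norm_mul, h2]; exact h3
  have h6 := norm_nonneg (∑ k ∈ range M, e y ^ k)
  nlinarith

lemma triv_bound (f : ℕ → ℝ) (M : ℕ) : ‖∑ k ∈ range M, e (f k)‖ ≤ M := by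
  refine (norm_sum_le _ _).trans ?_
  simp [norm_e]

noncomputable def W (θ : ℝ) (N : ℕ) : ℂ := ∑ n ∈ range N, e (θ * ((n : ℝ) + 1) ^ 2)

lemma sq_norm_sum (z : ℕ → ℂ) (hz : ∀ n, ‖z n‖ = 1) (N : ℕ) :
    ‖∑ n ∈ range N, z n‖ ^ 2 =
      N + 2 * (∑ m ∈ range N, ∑ k ∈ range m, z m * (starRingEnd ℂ) (z k)).re := by
  induction N with
  | zero => simp
  | succ N ih =>
    rw [sum_range_succ, sum_range_succ, Complex.add_re, ← mul_sum, ← map_sum]
    set s := ∑ n ∈ range N, z n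
    have h1 : ‖s + z N‖ ^ 2 = ‖s‖ ^ 2 + ‖z N‖ ^ 2 + 2 * (z N * (starRingEnd ℂ) s).re := by
      rw [Complex.sq_norm, Complex.sq_norm, Complex.sq_norm, add_comm s, Complex.normSq_add]
      ring
    rw [h1, ih, hz]; push_cast; ring

lemma reindex (G : ℕ → ℕ → ℂ) (N : ℕ) :
    ∑ m ∈ range N, ∑ k ∈ range m, G m k =
      ∑ j ∈ range N, ∑ k ∈ range (N - j - 1), G (k + j + 1) k := by
  rw [sum_sigma', sum_sigma']
  refine sum_nbij' (fun p => ⟨p.1 - p.2 - 1, p.2⟩) (fun p => ⟨p.2 + p.1 + 1, p.2⟩) ?_ ?_ ?_ ?_ ?_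
  · rintro ⟨m, k⟩ h
    simp only [mem_sigma, mem_range] at h ⊢
    omega
  · rintro ⟨m, k⟩ h
    simp only [mem_sigma, mem_range] at h ⊢
    omega
  · rintro ⟨m, k⟩ h
    simp only [mem_sigma, mem_range] at h ⊢
    have : k + (m - k - 1) + 1 = m := by omega
    simp [this]
  · rintro ⟨m, k⟩ h
    simp only [mem_sigma, mem_range] at h ⊢
    have : k + m + 1 - k - 1 = m := by omega
    simp [this]
  · rintro ⟨m, k⟩ h
    simp only [mem_sigma, mem_range] at h ⊢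
    have : k + (m - k - 1) + 1 = m := by omega
    simp [this]

lemma weyl_diff (θ : ℝ) (N : ℕ) :
    ‖W θ N‖ ^ 2 ≤ N + 2 * ∑ j ∈ range N,
      ‖∑ k ∈ range (N - j - 1), e ((2 * θ * ((j + 1 : ℕ) : ℝ)) * k)‖ := by
  unfold W
  rw [sq_norm_sum _ (fun n => norm_e _), reindex]
  gcongr
  refine (Complex.re_le_norm _).trans ((norm_sum_le _ _).trans ?_)
  refine sum_le_sum fun j _ => le_of_eq ?_
  have : ∀ k : ℕ, e (θ * (((k + j + 1 : ℕ) : ℝ) + 1) ^ 2) *
      (starRingEnd ℂ) (e (θ * ((k : ℝ) + 1) ^ 2)) =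
      e (θ * ((j + 1) * (j + 3))) * e ((2 * θ * ((j + 1 : ℕ) : ℝ)) * k) := by
    intro k
    rw [e_conj, ← e_add, ← e_add]; congr 1; push_cast; ring
  simp_rw [this]
  rw [← mul_sum, norm_mul, norm_e, one_mul]

/-- separation of multiples -/
lemma sep (x : ℝ) (a : ℤ) (q : ℕ) (hq : 0 < q) (hc : IsCoprime a (q : ℤ))
    (hx : |x - a / q| ≤ 1 / (q : ℝ) ^ 2) (d m : ℤ) (hd0 : d ≠ 0) (hd : 2 * |d| ≤ q) :
    1 / (2 * (q : ℝ)) ≤ |x * d - m| := by
  have hqR : (0 : ℝ) < q := by exact_mod_cast hq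
  have hne : d * a - m * q ≠ 0 := by
    intro h
    have h1 : (q : ℤ) ∣ d * a := ⟨m, by linarith⟩
    have h2 : (q : ℤ) ∣ d := hc.symm.dvd_of_dvd_mul_right h1
    have h3 := Int.le_of_dvd (abs_pos.mpr hd0) ((dvd_abs _ _).mpr h2)
    have h4 := abs_pos.mpr hd0
    omega
  have h1 : (1 : ℝ) ≤ |((d * a - m * q : ℤ) : ℝ)| := by
    rw [← Int.cast_abs]; exact_mod_cast Int.one_le_abs hne
  have h2 : x * d - m = ((d * a - m * q : ℤ) : ℝ) / q + d * (x - a / q) := by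
    push_cast; field_simp; ring
  have h3 : 1 / (q : ℝ) ≤ |((d * a - m * q : ℤ) : ℝ) / q| := by
    rw [abs_div, abs_of_pos hqR]; gcongr
  have hdR : 2 * |(d : ℝ)| ≤ q := by
    rw [← Int.cast_abs]; exact_mod_cast hd
  have h4 : |(d : ℝ) * (x - a / q)| ≤ 1 / (2 * (q : ℝ)) := by
    rw [abs_mul]
    calc |(d : ℝ)| * |x - a / q| ≤ (q / 2) * (1 / (q : ℝ) ^ 2) := by
          gcongr; linarith
      _ = 1 / (2 * (q : ℝ)) := by field_simp
  rw [h2]
  have h5 := abs_sub_abs_le_abs_add (((d * a - m * q : ℤ) : ℝ) / q) ((d : ℝ) * (x - a / q))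
  have h6 : 1 / (q : ℝ) = 1 / (2 * (q : ℝ)) + 1 / (2 * (q : ℝ)) := by field_simp; ring
  linarith

lemma counting (x : ℝ) (a : ℤ) (q : ℕ) (hq : 0 < q) (hc : IsCoprime a (q : ℤ))
    (hx : |x - a / q| ≤ 1 / (q : ℝ) ^ 2) (N : ℕ) (M : ℕ → ℕ) (hM : ∀ j, M j ≤ N) :
    ∑ j ∈ range N, ‖∑ k ∈ range (M j), e ((x * ((j + 1 : ℕ) : ℝ)) * k)‖ ≤
      (2 * N / q + 1) * (2 * (N + q * (1 + Real.log q))) := by
  classical
  have hqR : (0 : ℝ) < q := by exact_mod_cast hq
  set L := q / 2 + 1 with hL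
  let y : ℕ → ℝ := fun j => x * ((j + 1 : ℕ) : ℝ) - round (x * ((j + 1 : ℕ) : ℝ))
  let ι : ℕ → ℕ × Bool × ℕ := fun j => (j / L, decide (0 ≤ y j), ⌊2 * q * |y j|⌋₊)
  let φ : ℕ → ℝ := fun i => if i = 0 then (N : ℝ) else (q : ℝ) / i
  have hφ : ∀ i, 0 ≤ φ i := by
    intro i; simp only [φ]; split_ifs <;> positivity
  have h1 : ∀ j, ‖∑ k ∈ range (M j), e ((x * ((j + 1 : ℕ) : ℝ)) * k)‖ ≤ φ (ι j).2.2 := by
    intro j
    simp only [φ, ι]
    split_ifs with h
    · exact (triv_bound _ _).trans (by exact_mod_cast hM j)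
    · have g := geom_bound (x * ((j + 1 : ℕ) : ℝ)) (M j)
      have hfl : ((⌊2 * q * |y j|⌋₊ : ℕ) : ℝ) ≤ 2 * q * |y j| := Nat.floor_le (by positivity)
      have hpos : (0 : ℝ) < ((⌊2 * q * |y j|⌋₊ : ℕ) : ℝ) := by
        exact_mod_cast Nat.pos_of_ne_zero h
      rw [le_div_iff₀ hpos]
      have hn := norm_nonneg (∑ k ∈ range (M j), e ((x * ((j + 1 : ℕ) : ℝ)) * k))
      calc _ ≤ ‖∑ k ∈ range (M j), e ((x * ((j + 1 : ℕ) : ℝ)) * k)‖ * (2 * q * |y j|) := by
            gcongr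
        _ = q * (2 * |y j| * ‖∑ k ∈ range (M j), e ((x * ((j + 1 : ℕ) : ℝ)) * k)‖) := by ring
        _ ≤ q * 1 := by gcongr
        _ = q := mul_one _
  have hinj : Set.InjOn ι (range N : Finset ℕ) := by
    intro j _ j' _ hjj
    by_contra hne
    simp only [ι, Prod.mk.injEq, decide_eq_decide] at hjj
    obtain ⟨hb, hs, hf⟩ := hjj
    have hLpos : 0 < L := by omega
    have hd : 2 * |(j : ℤ) - j'| ≤ q := by
      have e1 := Nat.div_add_mod j L
      have e2 := Nat.div_add_mod j' L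
      have e3 := Nat.mod_lt j hLpos
      have e4 := Nat.mod_lt j' hLpos
      rw [hb] at e1
      have : |(j : ℤ) - j'| ≤ (q / 2 : ℕ) := by
        rw [abs_le]; constructor <;> omega
      omega
    have hs2 := sep x a q hq hc hx ((j : ℤ) - j')
      (round (x * ((j + 1 : ℕ) : ℝ)) - round (x * ((j' + 1 : ℕ) : ℝ))) (by omega) hd
    have hyy : x * (((j : ℤ) - j' : ℤ) : ℝ) -
        ((round (x * ((j + 1 : ℕ) : ℝ)) - round (x * ((j' + 1 : ℕ) : ℝ)) : ℤ) : ℝ) = y j - y j' := by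
      simp only [y]; push_cast; ring
    rw [hyy] at hs2
    have f1 : ((⌊2 * q * |y j|⌋₊ : ℕ) : ℝ) ≤ 2 * q * |y j| := Nat.floor_le (by positivity)
    have f2 : ((⌊2 * q * |y j'|⌋₊ : ℕ) : ℝ) ≤ 2 * q * |y j'| := Nat.floor_le (by positivity)
    have f3 := Nat.lt_floor_add_one (2 * q * |y j|)
    have f4 := Nat.lt_floor_add_one (2 * q * |y j'|)
    rw [hf] at f1 f3
    have hab : |y j - y j'| = |(|y j| - |y j'|)| := by
      by_cases h0 : 0 ≤ y j
      · rw [abs_of_nonneg h0, abs_of_nonneg (hs.mp h0)]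
      · have h0' : ¬ 0 ≤ y j' := fun h => h0 (hs.mpr h)
        rw [abs_of_neg (not_le.mp h0), abs_of_neg (not_le.mp h0'), ← abs_neg]; congr 1; ring
    rw [hab, div_le_iff₀ (by positivity)] at hs2
    have : |(|y j| - |y j'|)| * (2 * q) < 1 := by
      have : |(|y j| - |y j'|)| * (2 * q) = |(2 * q * |y j| - 2 * q * |y j'|)| := by
        rw [← mul_sub, abs_mul, abs_of_pos (by positivity : (0:ℝ) < 2 * q), mul_comm]
      rw [this, abs_lt]; constructor <;> linarith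
    linarith
  have hmem : (range N).image ι ⊆ range (N / L + 1) ×ˢ ((univ : Finset Bool) ×ˢ range (q + 1)) := by
    intro t ht
    obtain ⟨j, hj, rfl⟩ := mem_image.mp ht
    simp only [ι, mem_product, mem_range, mem_univ, true_and] at hj ⊢
    refine ⟨Nat.lt_succ_of_le (Nat.div_le_div_right hj.le), Nat.lt_succ_of_le ?_⟩
    have : |y j| ≤ 1 / 2 := abs_sub_round _
    have h2 : 2 * q * |y j| ≤ (q : ℝ) := by nlinarith
    exact (Nat.floor_le_floor h2).trans (by simp)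
  have hsumφ : ∑ i ∈ range (q + 1), φ i ≤ N + q * (1 + Real.log q) := by
    rw [sum_range_succ']
    have hh := harmonic_le_one_add_log q
    have : ∑ i ∈ range q, φ (i + 1) = q * (harmonic q : ℝ) := by
      simp only [φ, harmonic, Nat.succ_ne_zero, if_false]
      push_cast
      rw [mul_sum]
      refine sum_congr rfl fun i _ => ?_
      rw [div_eq_mul_inv]
    rw [this]
    have h0 : φ 0 = N := by simp [φ]
    rw [h0]
    nlinarith
  calc _ ≤ ∑ j ∈ range N, φ (ι j).2.2 := sum_le_sum fun j _ => h1 j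
    _ = ∑ t ∈ (range N).image ι, φ t.2.2 := (sum_image (f := fun t : ℕ × Bool × ℕ => φ t.2.2) hinj).symm
    _ ≤ ∑ t ∈ range (N / L + 1) ×ˢ ((univ : Finset Bool) ×ˢ range (q + 1)), φ t.2.2 :=
        sum_le_sum_of_subset_of_nonneg hmem fun t _ _ => hφ _
    _ = ((N / L + 1 : ℕ) : ℝ) * (2 * ∑ i ∈ range (q + 1), φ i) := by
        rw [sum_product]
        simp only [sum_product, sum_const, card_range, card_univ, Fintype.card_bool, nsmul_eq_mul]
        push_cast; ring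
    _ ≤ _ := by
        have hs0 : 0 ≤ ∑ i ∈ range (q + 1), φ i := sum_nonneg fun i _ => hφ i
        have hNL : ((N / L : ℕ) : ℝ) ≤ 2 * N / q := by
          refine Nat.cast_div_le.trans ?_
          have hL2 : (q : ℝ) ≤ 2 * L := by
            have : q ≤ 2 * L := by omega
            exact_mod_cast this
          have hLp : (0 : ℝ) < L := by
            have : 0 < L := by omega
            exact_mod_cast this
          rw [div_le_div_iff₀ hLp hqR]
          have : (0 : ℝ) ≤ N := by positivity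
          nlinarith
        push_cast
        gcongr

end Pool.Agent.H.MP_3c4aa6_nt
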