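import Pool.Agent.H.MP_3c4aa6_nt.A

namespace Pool.Agent.H.MP_3c4aa6_nt

open Finset Real

lemma upper (θ μ c : ℝ) (hμ : 2 ≤ μ) (hc : 0 < c)
    (hD : ∀ (h : ℕ) (p : ℤ), 0 < h → c * (h : ℝ) ^ (-μ) ≤ |θ - p / h|) :
    ∃ C : ℝ, 0 < C ∧ ∀ N : ℕ, 1 ≤ N →
      ‖W θ N‖ ^ 2 ≤ C * (N : ℝ) ^ (2 * (1 - 1 / μ)) * (1 + Real.log N) := by
  have hμ0 : 0 < μ := by linarith
  have hμ1 : 0 < μ - 1 := by linarith
  set c' := c ^ (1 / (μ - 1)) with hc'
  have hc'0 : 0 < c' := Real.rpow_pos_of_pos hc _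
  refine ⟨37 + 16 / c', by positivity, fun N hN => ?_⟩
  have hN1 : (1 : ℝ) ≤ N := by exact_mod_cast hN
  have hN0 : (0 : ℝ) < N := by linarith
  set P : ℝ := (N : ℝ) ^ (2 * (1 - 1 / μ)) with hP
  have hinv : 1 / μ ≤ 1 / 2 := one_div_le_one_div_of_le (by norm_num) hμ
  have hinv0 : 0 < 1 / μ := by positivity
  have hNP : (N : ℝ) ≤ P := by
    calc (N : ℝ) = (N : ℝ) ^ (1 : ℝ) := (Real.rpow_one _).symm
      _ ≤ P := Real.rpow_le_rpow_of_exponent_le hN1 (by linarith)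
  have hPN : P ≤ (N : ℝ) ^ 2 := by
    calc P ≤ (N : ℝ) ^ ((2 : ℕ) : ℝ) :=
          Real.rpow_le_rpow_of_exponent_le hN1 (by push_cast; linarith)
      _ = _ := Real.rpow_natCast _ _
  have hP1 : 1 ≤ P := hN1.trans hNP
  set Q := ⌈P⌉₊ with hQ
  have hQ1 : P ≤ Q := Nat.le_ceil _
  have hQ2 : (Q : ℝ) ≤ 2 * P := by
    have := Nat.ceil_lt_add_one (by linarith : 0 ≤ P); linarith
  have hQpos : 0 < Q := by
    have : (0 : ℝ) < Q := by linarith
    exact_mod_cast this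
  obtain ⟨r, hr1, hr2⟩ := Real.exists_rat_abs_sub_le_and_den_le (2 * θ) hQpos
  set q := r.den with hq
  set a := r.num with ha
  have hqpos : 0 < q := r.pos
  have hqR : (0 : ℝ) < q := by exact_mod_cast hqpos
  have hq1 : (1 : ℝ) ≤ q := by exact_mod_cast hqpos
  have hqQ : (q : ℝ) ≤ Q := by exact_mod_cast hr2
  have hcop : IsCoprime a (q : ℤ) := by
    rw [Int.isCoprime_iff_gcd_eq_one]; exact r.reduced
  have hrc : (r : ℝ) = a / q := Rat.cast_def r
  rw [hrc] at hr1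
  have hx : |2 * θ - a / q| ≤ 1 / (q : ℝ) ^ 2 := by
    refine hr1.trans ?_
    rw [sq]; gcongr; linarith
  have h1 := weyl_diff θ N
  have h2 := counting (2 * θ) a q hqpos hcop hx N (fun j => N - j - 1) (fun j => by omega)
  have h3 : ‖W θ N‖ ^ 2 ≤ N + 2 * ((2 * N / q + 1) * (2 * (N + q * (1 + Real.log q)))) := by
    linarith
  -- lower bound on q
  have h4 := hD (2 * q) a (by omega)
  have h5 : |θ - a / ((2 * q : ℕ) : ℝ)| = |2 * θ - a / q| / 2 := by
    have : θ - a / ((2 * q : ℕ) : ℝ) = (2 * θ - a / q) / 2 := by push_cast; field_simp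
    rw [this, abs_div]; norm_num
  rw [h5] at h4
  have h6 : |2 * θ - a / q| ≤ 1 / (P * q) := by
    refine hr1.trans ?_
    gcongr; linarith
  have h2q : (0 : ℝ) < 2 * q := by positivity
  have h7 : c * P ≤ (2 * q : ℝ) ^ (μ - 1) := by
    have e1 : ((2 * q : ℕ) : ℝ) ^ (-μ) = ((2 * q : ℝ) ^ μ)⁻¹ := by
      push_cast; exact Real.rpow_neg h2q.le μ
    rw [e1] at h4
    have e2 : (2 * q : ℝ) ^ (μ - 1) = (2 * q : ℝ) ^ μ / (2 * q) := Real.rpow_sub_one h2q.ne' μ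
    have e3 : 0 < (2 * q : ℝ) ^ μ := Real.rpow_pos_of_pos h2q μ
    rw [e2, le_div_iff₀ h2q]
    have e4 : c * ((2 * q : ℝ) ^ μ)⁻¹ ≤ 1 / (P * q) / 2 := by linarith
    rw [← div_eq_mul_inv, div_div, div_le_div_iff₀ e3 (by positivity)] at e4
    linarith
  have h8 : c' * (N : ℝ) ^ (2 / μ) ≤ 2 * q := by
    have e1 := Real.rpow_le_rpow (by positivity) h7 (by positivity : 0 ≤ 1 / (μ - 1))
    rw [← Real.rpow_mul h2q.le, Real.mul_rpow hc.le (by linarith), hP, ← Real.rpow_mul hN0.le] at e1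
    have e2 : (μ - 1) * (1 / (μ - 1)) = 1 := by field_simp
    have e3 : 2 * (1 - 1 / μ) * (1 / (μ - 1)) = 2 / μ := by field_simp
    rw [e2, e3, Real.rpow_one] at e1
    exact e1
  have h9 : (N : ℝ) ^ 2 = P * (N : ℝ) ^ (2 / μ) := by
    rw [hP, ← Real.rpow_add hN0, ← Real.rpow_natCast]; congr 1; push_cast; ring
  have h10 : (N : ℝ) ^ 2 / q ≤ 2 * P / c' := by
    rw [div_le_div_iff₀ hqR hc'0, h9]
    have : 0 ≤ P := by linarith
    nlinarith
  have hlogN : 0 ≤ Real.log N := Real.log_nonneg hN1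
  have hlogq0 : 0 ≤ Real.log q := Real.log_nonneg hq1
  have hlogq : 1 + Real.log q ≤ 2 * (1 + Real.log N) := by
    have e1 : Real.log q ≤ Real.log (2 * (N : ℝ) ^ 2) := Real.log_le_log hqR (by linarith)
    rw [Real.log_mul (by norm_num) (by positivity), Real.log_pow] at e1
    have e2 : Real.log 2 ≤ 1 := by
      have := Real.log_le_sub_one_of_pos (by norm_num : (0 : ℝ) < 2); linarith
    push_cast at e1; linarith
  set l := 1 + Real.log q
  set Λ := 1 + Real.log N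
  have hΛ : 1 ≤ Λ := by simp only [Λ]; linarith
  have hl0 : 0 ≤ l := by simp only [l]; linarith
  have h11 : (N : ℝ) + 2 * ((2 * N / q + 1) * (2 * (N + q * l))) =
      5 * N + 8 * ((N : ℝ) ^ 2 / q) + 8 * N * l + 4 * q * l := by
    field_simp; ring
  rw [h11] at h3
  have hq2P : (q : ℝ) ≤ 2 * P := hqQ.trans hQ2
  have t1 : (N : ℝ) * l ≤ P * (2 * Λ) := by gcongr
  have t2 : (q : ℝ) * l ≤ (2 * P) * (2 * Λ) := by gcongr
  have t3 : P ≤ P * Λ := by nlinarith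
  have t4 : 2 * P / c' ≤ 2 * P / c' * Λ := by
    have : 0 ≤ 2 * P / c' := by positivity
    nlinarith
  have t5 : (37 + 16 / c') * P * Λ = 37 * (P * Λ) + 8 * (2 * P / c' * Λ) := by ring
  rw [t5]
  nlinarith

lemma gauss (a : ℤ) (q : ℕ) (hq : Odd q) (hc : IsCoprime a (q : ℤ)) :
    ‖∑ r ∈ range q, e (a / q * ((r : ℝ) + 1) ^ 2)‖ ^ 2 = q := by
  classical
  have hqpos : 0 < q := hq.pos
  haveI : NeZero q := ⟨hqpos.ne'⟩
  set ψ : AddChar (ZMod q) ℂ := ZMod.stdAddChar with hψ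
  have h1 : ∀ r : ℕ, e (a / q * ((r : ℝ) + 1) ^ 2) = ψ ((a : ZMod q) * ((r : ZMod q) + 1) ^ 2) := by
    intro r
    have := ZMod.stdAddChar_coe (N := q) (a * ((r : ℤ) + 1) ^ 2)
    push_cast at this
    rw [hψ, this]; unfold e; congr 1; push_cast; ring
  have h2 : ∑ r ∈ range q, e (a / q * ((r : ℝ) + 1) ^ 2) = ∑ z : ZMod q, ψ ((a : ZMod q) * z ^ 2) := by
    simp_rw [h1]
    refine sum_nbij' (fun r => (r : ZMod q) + 1) (fun z => (z - 1).val) ?_ ?_ ?_ ?_ ?_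
    · intro r _; simp
    · intro z _; simp [ZMod.val_lt]
    · intro r hr
      simp only [mem_range] at hr
      simp [ZMod.val_natCast, Nat.mod_eq_of_lt hr]
    · intro z _; simp
    · intro r _; rfl
  rw [h2]
  have hconj : ∀ z : ZMod q, (starRingEnd ℂ) (ψ z) = ψ (-z) := by
    intro z
    rw [AddChar.map_neg_eq_conj]
  have hu : IsUnit (2 * (a : ZMod q)) := by
    refine IsUnit.mul ?_ ?_
    · have : IsUnit ((2 : ℕ) : ZMod q) := by
        rw [ZMod.isUnit_iff_coprime]; exact Nat.coprime_two_left.mpr hq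
      simpa using this
    · obtain ⟨u, v, huv⟩ := hc
      have : ((u * a + v * q : ℤ) : ZMod q) = 1 := by rw [huv]; simp
      push_cast at this
      rw [ZMod.natCast_self, mul_zero, add_zero] at this
      exact IsUnit.of_mul_eq_one _ (by rw [mul_comm]; exact this)
  set G := ∑ z : ZMod q, ψ ((a : ZMod q) * z ^ 2) with hG
  have h3 : G * (starRingEnd ℂ) G = q := by
    rw [hG, map_sum, mul_comm, sum_mul_sum]
    have h4 : ∀ s : ZMod q, ∑ z : ZMod q, (starRingEnd ℂ) (ψ ((a : ZMod q) * s ^ 2)) *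
        ψ ((a : ZMod q) * z ^ 2) =
        ∑ h : ZMod q, ψ ((a : ZMod q) * h ^ 2) * ψ (s * (2 * (a : ZMod q) * h)) := by
      intro s
      rw [← Equiv.sum_comp (Equiv.addRight s)]
      refine sum_congr rfl fun h _ => ?_
      rw [hconj, ← AddChar.map_add_eq_mul, ← AddChar.map_add_eq_mul]
      congr 1
      simp only [Equiv.coe_addRight]; ring
    simp_rw [h4]
    rw [sum_comm]
    simp_rw [← mul_sum]
    have h5 : ∀ h : ZMod q, ∑ s : ZMod q, ψ (s * (2 * (a : ZMod q) * h)) =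
        if h = 0 then (q : ℂ) else 0 := by
      intro h
      rw [AddChar.sum_mulShift _ (ZMod.isPrimitive_stdAddChar q)]
      simp only [hu.mul_right_eq_zero, ZMod.card]
      split_ifs <;> simp
    simp_rw [h5]
    simp
  have h6 : ((‖G‖ ^ 2 : ℝ) : ℂ) = q := by
    rw [← h3, Complex.mul_conj, Complex.sq_norm]
  exact_mod_cast h6

lemma W_block (θ : ℝ) (q M : ℕ) :
    W θ (q * M) = ∑ m ∈ range M, ∑ r ∈ range q, e (θ * (((q * m + r : ℕ) : ℝ) + 1) ^ 2) := by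
  induction M with
  | zero => simp [W]
  | succ M ih =>
    rw [sum_range_succ, ← ih, Nat.mul_succ]
    unfold W
    rw [sum_range_add]

lemma lower (θ : ℝ) (a : ℤ) (q M : ℕ) (hq : Odd q) (hc : IsCoprime a (q : ℤ))
    (hβ : |θ - a / q| * ((q * M : ℕ) : ℝ) ^ 2 * (4 * π) ≤ 1) :
    Real.sqrt q * M / 2 - q ≤ ‖W θ (q * M)‖ := by
  have hqpos : 0 < q := hq.pos
  have hqR : (0 : ℝ) < q := by exact_mod_cast hqpos
  set β := θ - a / q with hβd
  set G := ∑ r ∈ range q, e (a / q * ((r : ℝ) + 1) ^ 2) with hG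
  have hGn : ‖G‖ = Real.sqrt q := by
    rw [← gauss a q hq hc, Real.sqrt_sq (norm_nonneg _)]
  set N : ℝ := ((q * M : ℕ) : ℝ) with hN
  have hNe : N = q * M := by rw [hN]; push_cast; ring
  have hp := Real.pi_pos
  have hb := abs_nonneg β
  have h1 : ∀ m ∈ range M, ‖∑ r ∈ range q, e (θ * (((q * m + r : ℕ) : ℝ) + 1) ^ 2) - G‖ ≤
      q * (2 * π * (|β| * (q * (2 * N)))) + Real.sqrt q / 2 := by
    intro m hm
    have hmM : (m : ℝ) + 1 ≤ M := by exact_mod_cast mem_range.mp hm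
    have hm0 : (0 : ℝ) ≤ m := by positivity
    have e1 : ∀ r : ℕ, e (θ * (((q * m + r : ℕ) : ℝ) + 1) ^ 2) =
        e (a / q * ((r : ℝ) + 1) ^ 2) * e (β * (((q * m + r : ℕ) : ℝ) + 1) ^ 2) := by
      intro r
      rw [← e_add, ← e_add_int (_ + _) (a * (q * m ^ 2 + 2 * m * (r + 1)))]
      congr 1
      rw [hβd]; push_cast; field_simp; ring
    have e2 : ∑ r ∈ range q, e (θ * (((q * m + r : ℕ) : ℝ) + 1) ^ 2) - G =
        ∑ r ∈ range q, e (a / q * ((r : ℝ) + 1) ^ 2) *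
          (e (β * (((q * m + r : ℕ) : ℝ) + 1) ^ 2) - e (β * ((q : ℝ) * m) ^ 2)) +
        G * (e (β * ((q : ℝ) * m) ^ 2) - 1) := by
      simp_rw [e1, mul_sub]
      rw [sum_sub_distrib, ← sum_mul, ← hG]; ring
    rw [e2]
    refine (norm_add_le _ _).trans (add_le_add ?_ ?_)
    · refine (norm_sum_le _ _).trans ?_
      have : ∀ r ∈ range q, ‖e (a / q * ((r : ℝ) + 1) ^ 2) *
          (e (β * (((q * m + r : ℕ) : ℝ) + 1) ^ 2) - e (β * ((q : ℝ) * m) ^ 2))‖ ≤
          2 * π * (|β| * (q * (2 * N))) := by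
        intro r hr
        have hrq : (r : ℝ) + 1 ≤ q := by exact_mod_cast mem_range.mp hr
        have hr0 : (0 : ℝ) ≤ r := by positivity
        rw [norm_mul, norm_e, one_mul]
        refine (norm_e_sub_e_le _ _).trans ?_
        rw [← mul_sub, abs_mul]
        gcongr
        have e3 : (((q * m + r : ℕ) : ℝ) + 1) ^ 2 - ((q : ℝ) * m) ^ 2 =
            (r + 1) * (2 * (q * m) + (r + 1)) := by push_cast; ring
        rw [e3, abs_of_nonneg (by positivity)]
        have e4 : (q : ℝ) * m + q ≤ N := by rw [hNe]; nlinarith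
        gcongr
        linarith
      refine (sum_le_sum this).trans ?_
      simp
    · rw [norm_mul, hGn]
      have e5 := norm_e_sub_one_le (β * ((q : ℝ) * m) ^ 2)
      have e6 : |β * ((q : ℝ) * m) ^ 2| ≤ |β| * N ^ 2 := by
        rw [abs_mul, abs_of_nonneg (by positivity : (0 : ℝ) ≤ ((q : ℝ) * m) ^ 2), hNe]
        have hmM' : (m : ℝ) ≤ M := by linarith
        gcongr
      have e7 : ‖e (β * ((q : ℝ) * m) ^ 2) - 1‖ ≤ 1 / 2 := by nlinarith
      have := Real.sqrt_nonneg q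
      nlinarith
  have h2 : ‖W θ (q * M) - M * G‖ ≤ M * (q * (2 * π * (|β| * (q * (2 * N)))) + Real.sqrt q / 2) := by
    have : W θ (q * M) - M * G =
        ∑ m ∈ range M, (∑ r ∈ range q, e (θ * (((q * m + r : ℕ) : ℝ) + 1) ^ 2) - G) := by
      rw [sum_sub_distrib, W_block]; simp
    rw [this]
    refine (norm_sum_le _ _).trans ((sum_le_sum h1).trans ?_)
    rw [sum_const, card_range, nsmul_eq_mul]
  have h3 : ‖(M : ℂ) * G‖ = M * Real.sqrt q := by rw [norm_mul, hGn]; simp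
  have h4 := norm_sub_norm_le ((M : ℂ) * G) (W θ (q * M))
  rw [norm_sub_rev] at h4
  have h5 : (M : ℝ) * (q * (2 * π * (|β| * (q * (2 * N))))) = q * (|β| * N ^ 2 * (4 * π)) := by
    rw [hNe]; ring
  have h6 : (q : ℝ) * (|β| * N ^ 2 * (4 * π)) ≤ q * 1 := by gcongr
  nlinarith

end Pool.Agent.H.MP_3c4aa6_nt
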