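import Pool.Agent.H.MP_3c4aa6_nt.B

namespace Pool.Agent.H.MP_3c4aa6_nt

open Finset Real Filter

def qq (R k : ℕ) : ℕ := 3 ^ (R ^ k)

noncomputable def cc (μ : ℝ) (R : ℕ) (u : ℝ) (k : ℕ) : ℤ :=
  3 * ⌊(qq R k : ℝ) ^ ((R : ℝ) - μ)⌋ + 3 * ⌊u * qq R k⌋ + 1

noncomputable def aa (μ : ℝ) (R : ℕ) (u : ℝ) : ℕ → ℤ
  | 0 => 1
  | k + 1 => aa μ R u k * (qq R k : ℤ) ^ (R - 1) + cc μ R u k

noncomputable def rr (μ : ℝ) (R : ℕ) (u : ℝ) (k : ℕ) : ℝ := aa μ R u k / qq R k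

noncomputable def th (μ : ℝ) (R : ℕ) (u : ℝ) : ℝ := ⨆ k, rr μ R u k

lemma qq_succ (R k : ℕ) : qq R (k + 1) = qq R k ^ R := by
  unfold qq; rw [pow_succ, pow_mul]

lemma qq_ge (R k : ℕ) (hR : 1 ≤ R) : 3 ≤ qq R k := by
  unfold qq
  calc 3 = 3 ^ 1 := by norm_num
    _ ≤ _ := Nat.pow_le_pow_right (by norm_num) (Nat.one_le_pow _ _ hR)

lemma qq_gt (R k : ℕ) (hR : 2 ≤ R) : k < qq R k := by
  unfold qq
  exact (Nat.lt_pow_self (by omega : 1 < R)).trans (Nat.lt_pow_self (by norm_num))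

lemma qq_odd (R k : ℕ) : Odd (qq R k) := Odd.pow (by decide)

lemma aa_mod (μ : ℝ) (R : ℕ) (hR : 2 ≤ R) (u : ℝ) (k : ℕ) : ∃ t : ℤ, aa μ R u k = 3 * t + 1 := by
  cases k with
  | zero => exact ⟨0, by simp [aa]⟩
  | succ k =>
    have h3 : (3 : ℤ) ∣ (qq R k : ℤ) ^ (R - 1) := by
      refine Dvd.dvd.pow ?_ (by omega)
      unfold qq; push_cast
      exact dvd_pow_self _ (pow_pos (by omega) _).ne'
    obtain ⟨s, hs⟩ := h3
    refine ⟨aa μ R u k * s + ⌊(qq R k : ℝ) ^ ((R : ℝ) - μ)⌋ + ⌊u * qq R k⌋, ?_⟩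
    simp only [aa, cc, hs]; ring

lemma aa_cop (μ : ℝ) (R : ℕ) (hR : 2 ≤ R) (u : ℝ) (k : ℕ) :
    IsCoprime (aa μ R u k) (qq R k : ℤ) := by
  obtain ⟨t, ht⟩ := aa_mod μ R hR u k
  unfold qq; push_cast
  refine IsCoprime.pow_right ⟨1, -t, ?_⟩
  rw [ht]; ring

lemma aa_mono (μ : ℝ) (R : ℕ) {u v : ℝ} (huv : u ≤ v) (k : ℕ) : aa μ R u k ≤ aa μ R v k := by
  induction k with
  | zero => simp [aa]
  | succ k ih =>
    simp only [aa, cc]
    have h1 : ⌊u * qq R k⌋ ≤ ⌊v * qq R k⌋ := Int.floor_le_floor (by gcongr)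
    have h2 : aa μ R u k * (qq R k : ℤ) ^ (R - 1) ≤ aa μ R v k * (qq R k : ℤ) ^ (R - 1) := by
      gcongr
    linarith

lemma aa_sep (μ : ℝ) (R : ℕ) {u v : ℝ} (huv : u ≤ v) (k : ℕ) (h : 1 ≤ (v - u) * qq R k) :
    aa μ R u (k + 1) + 3 ≤ aa μ R v (k + 1) := by
  simp only [aa, cc]
  have ih := aa_mono μ R huv k
  have h1 : ⌊u * qq R k⌋ + 1 ≤ ⌊v * qq R k⌋ := by
    rw [← Int.floor_add_one]; exact Int.floor_le_floor (by linarith)
  have h2 : aa μ R u k * (qq R k : ℤ) ^ (R - 1) ≤ aa μ R v k * (qq R k : ℤ) ^ (R - 1) := by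
    gcongr
  linarith

section
variable {μ : ℝ} {R : ℕ} {u : ℝ}

lemma R_ge (hμ : 4 ≤ μ) (hR : μ + 1 ≤ R) : 2 ≤ R := by
  have : (2 : ℝ) ≤ R := by linarith
  exact_mod_cast this

lemma rr_step (hμ : 4 ≤ μ) (hR : μ + 1 ≤ R) (hu : u ∈ Set.Icc (0 : ℝ) 1) (k : ℕ) :
    rr μ R u k + (qq R k : ℝ) ^ (-μ) ≤ rr μ R u (k + 1) ∧
      rr μ R u (k + 1) ≤ rr μ R u k + 7 * (qq R k : ℝ) ^ (-μ) := by
  have hR2 := R_ge hμ hR
  have hq3 : (3 : ℝ) ≤ qq R k := by exact_mod_cast qq_ge R k (by omega)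
  set q : ℝ := (qq R k : ℝ) with hq
  have hq0 : 0 < q := by linarith
  have h1 : rr μ R u (k + 1) = rr μ R u k + cc μ R u k / q ^ R := by
    unfold rr
    rw [qq_succ]
    simp only [aa]
    push_cast
    rw [← hq]
    obtain ⟨S, rfl⟩ : ∃ S, R = S + 1 := ⟨R - 1, by omega⟩
    simp only [Nat.add_sub_cancel]
    field_simp
    ring
  set x : ℝ := q ^ ((R : ℝ) - μ) with hx
  have hxq : q ≤ x := by
    calc q = q ^ (1 : ℝ) := (Real.rpow_one _).symm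
      _ ≤ x := Real.rpow_le_rpow_of_exponent_le (by linarith) (by linarith)
  have h2 : q ^ (-μ) = x / q ^ R := by
    rw [hx, ← Real.rpow_natCast, ← Real.rpow_sub hq0]; congr 1; ring
  have hqR : 0 < q ^ R := pow_pos hq0 R
  have f1 := Int.floor_le x
  have f2 := Int.lt_floor_add_one x
  have f3 := Int.floor_le (u * q)
  have f4 : (0 : ℝ) ≤ ⌊u * q⌋ := by
    have : 0 ≤ ⌊u * q⌋ := Int.floor_nonneg.mpr (mul_nonneg hu.1 hq0.le)
    exact_mod_cast this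
  have f5 : u * q ≤ q := by nlinarith [hu.2]
  have hc : (cc μ R u k : ℝ) = 3 * ⌊x⌋ + 3 * ⌊u * q⌋ + 1 := by
    unfold cc; push_cast; rfl
  rw [h1, h2, hc]
  constructor
  · gcongr; linarith
  · rw [← mul_div_assoc]; gcongr; linarith

lemma b_step (hμ : 4 ≤ μ) (hR : μ + 1 ≤ R) (k : ℕ) :
    2 * (qq R (k + 1) : ℝ) ^ (-μ) ≤ (qq R k : ℝ) ^ (-μ) := by
  have hR2 := R_ge hμ hR
  have hq3 : (3 : ℝ) ≤ qq R k := by exact_mod_cast qq_ge R k (by omega)
  rw [qq_succ]; push_cast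
  set q : ℝ := (qq R k : ℝ) with hq
  have hq0 : 0 < q := by linarith
  have h1 : 2 * q ≤ q ^ R := by
    calc 2 * q ≤ q ^ 2 := by nlinarith
      _ ≤ q ^ R := pow_le_pow_right₀ (by linarith) hR2
  have h2 : (q ^ R) ^ (-μ) ≤ (2 * q) ^ (-μ) :=
    Real.rpow_le_rpow_of_nonpos (by positivity) h1 (by linarith)
  rw [Real.mul_rpow (by norm_num) hq0.le] at h2
  have h3 : (2 : ℝ) ^ (-μ) ≤ (2 : ℝ) ^ (-1 : ℝ) :=
    Real.rpow_le_rpow_of_exponent_le (by norm_num) (by linarith)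
  rw [Real.rpow_neg_one] at h3
  have h4 : 0 < q ^ (-μ) := Real.rpow_pos_of_pos hq0 _
  nlinarith

lemma th_bounds (hμ : 4 ≤ μ) (hR : μ + 1 ≤ R) (hu : u ∈ Set.Icc (0 : ℝ) 1) (k : ℕ) :
    (qq R k : ℝ) ^ (-μ) ≤ th μ R u - rr μ R u k ∧
      th μ R u - rr μ R u k ≤ 14 * (qq R k : ℝ) ^ (-μ) := by
  have hb : ∀ j, 0 ≤ (qq R j : ℝ) ^ (-μ) := fun j => by positivity
  have hmono : Monotone (rr μ R u) := monotone_nat_of_le_succ fun j => by
    have := (rr_step hμ hR hu j).1; have := hb j; linarith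
  have hanti : Antitone (fun j => rr μ R u j + 14 * (qq R j : ℝ) ^ (-μ)) :=
    antitone_nat_of_succ_le fun j => by
      have := (rr_step hμ hR hu j).2; have := b_step hμ hR j; linarith
  have hall : ∀ i j, rr μ R u j ≤ rr μ R u i + 14 * (qq R i : ℝ) ^ (-μ) := by
    intro i j
    rcases le_total i j with h | h
    · have := hanti h; have := hb j; simp only at *; linarith
    · have := hmono h; have := hb i; linarith
  have hbdd : BddAbove (Set.range (rr μ R u)) := ⟨_, by rintro _ ⟨j, rfl⟩; exact hall 0 j⟩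
  constructor
  · have := le_ciSup hbdd (k + 1)
    have := (rr_step hμ hR hu k).1
    unfold th; linarith
  · have := ciSup_le (hall k)
    unfold th; linarith

lemma th_mem (hμ : 4 ≤ μ) (hR : μ + 1 ≤ R) (hu : u ∈ Set.Icc (0 : ℝ) 1) :
    th μ R u ∈ Set.Ico (0 : ℝ) 1 := by
  have h := th_bounds hμ hR hu 0
  have h0 : rr μ R u 0 = 1 / 3 := by simp [rr, aa, qq]
  have h1 : (qq R 0 : ℝ) = 3 := by simp [qq]
  rw [h0, h1] at h
  have h2 : (3 : ℝ) ^ (-μ) ≤ (3 : ℝ) ^ (-((4 : ℕ) : ℝ)) :=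
    Real.rpow_le_rpow_of_exponent_le (by norm_num) (by push_cast; linarith)
  rw [Real.rpow_neg (by norm_num) ((4 : ℕ) : ℝ), Real.rpow_natCast] at h2
  have h3 : 0 < (3 : ℝ) ^ (-μ) := by positivity
  norm_num at h2
  constructor <;> linarith [h.1, h.2]

lemma rpow_split (q μ : ℝ) (hq : 0 < q) : q ^ (-μ) * (q ^ (μ - 1) * q) = 1 := by
  rw [← Real.rpow_add_one hq.ne', ← Real.rpow_add hq]; simp

lemma th_dio (hμ : 4 ≤ μ) (hR : μ + 1 ≤ R) (hR' : R ≤ (μ - 1) * (μ - 1))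
    (hu : u ∈ Set.Icc (0 : ℝ) 1) (h : ℕ) (p : ℤ) (hh : 0 < h) :
    1 / (2 * 28 ^ (μ - 1)) * (h : ℝ) ^ (-μ) ≤ |th μ R u - p / h| := by
  classical
  have hR2 := R_ge hμ hR
  have hh1 : (1 : ℝ) ≤ h := by exact_mod_cast hh
  have hh0 : (0 : ℝ) < h := by linarith
  have hex : ∃ k, 28 * (h : ℝ) ≤ (qq R k : ℝ) ^ (μ - 1) := by
    refine ⟨28 * h, ?_⟩
    have h1 : ((28 * h : ℕ) : ℝ) ≤ qq R (28 * h) := by exact_mod_cast (qq_gt R _ hR2).le
    push_cast at h1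
    calc 28 * (h : ℝ) ≤ (qq R (28 * h) : ℝ) ^ (1 : ℝ) := by rw [Real.rpow_one]; exact h1
      _ ≤ _ := Real.rpow_le_rpow_of_exponent_le (by linarith) (by linarith)
  set k := Nat.find hex with hk
  have hk1 : 28 * (h : ℝ) ≤ (qq R k : ℝ) ^ (μ - 1) := Nat.find_spec hex
  have hq3 : (3 : ℝ) ≤ qq R k := by exact_mod_cast qq_ge R k (by omega)
  have hk2 : (qq R k : ℝ) ≤ (28 * h : ℝ) ^ (μ - 1) := by
    rcases Nat.eq_zero_or_pos k with h0 | h0
    · rw [h0]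
      have h1 : (qq R 0 : ℝ) = 3 := by simp [qq]
      rw [h1]
      calc (3 : ℝ) ≤ (28 * h : ℝ) ^ (1 : ℝ) := by rw [Real.rpow_one]; linarith
        _ ≤ _ := Real.rpow_le_rpow_of_exponent_le (by linarith) (by linarith)
    · obtain ⟨j, hj⟩ : ∃ j, k = j + 1 := ⟨k - 1, by omega⟩
      have h1 := Nat.find_min hex (show j < Nat.find hex by omega)
      rw [not_le] at h1
      have hq3' : (3 : ℝ) ≤ qq R j := by exact_mod_cast qq_ge R j (by omega)
      rw [hj, qq_succ]; push_cast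
      calc (qq R j : ℝ) ^ R = (qq R j : ℝ) ^ (R : ℝ) := (Real.rpow_natCast _ _).symm
        _ ≤ (qq R j : ℝ) ^ ((μ - 1) * (μ - 1)) :=
            Real.rpow_le_rpow_of_exponent_le (by linarith) hR'
        _ = ((qq R j : ℝ) ^ (μ - 1)) ^ (μ - 1) := Real.rpow_mul (by linarith) _ _
        _ ≤ _ := Real.rpow_le_rpow (by positivity) h1.le (by linarith)
  obtain ⟨hb1, hb2⟩ := th_bounds hμ hR hu k
  have hcop := aa_cop μ R hR2 u k
  set q := qq R k with hq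
  set a := aa μ R u k with ha
  have hrr : rr μ R u k = a / q := rfl
  rw [hrr] at hb1 hb2
  have hq0 : (0 : ℝ) < q := by linarith
  have h28 : (1 : ℝ) ≤ 28 ^ (μ - 1) := Real.one_le_rpow (by norm_num) (by linarith)
  have hhμ : 0 < (h : ℝ) ^ (-μ) := by positivity
  by_cases heq : p * q - a * h = 0
  · have h1 : (q : ℤ) ∣ a * h := ⟨p, by linarith⟩
    have h2 : (q : ℤ) ∣ h := hcop.symm.dvd_of_dvd_mul_left h1
    have h3 : q ≤ h := Nat.le_of_dvd hh (by exact_mod_cast h2)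
    have h4 : (p : ℝ) / h = a / q := by
      rw [div_eq_div_iff hh0.ne' hq0.ne']
      have : ((p * q - a * h : ℤ) : ℝ) = 0 := by rw [heq]; simp
      push_cast at this; linarith
    rw [h4]
    have h5 : (h : ℝ) ^ (-μ) ≤ (q : ℝ) ^ (-μ) :=
      Real.rpow_le_rpow_of_nonpos hq0 (by exact_mod_cast h3) (by linarith)
    have h6 : 1 / (2 * (28 : ℝ) ^ (μ - 1)) ≤ 1 := by
      rw [div_le_one (by positivity)]; linarith
    calc _ ≤ 1 * (h : ℝ) ^ (-μ) := by gcongr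
      _ ≤ _ := by rw [one_mul]; exact h5.trans (hb1.trans (le_abs_self _))
  · have h1 : (1 : ℝ) ≤ |((p * q - a * h : ℤ) : ℝ)| := by
      rw [← Int.cast_abs]; exact_mod_cast Int.one_le_abs heq
    have h2 : (p : ℝ) / h - a / q = ((p * q - a * h : ℤ) : ℝ) / (h * q) := by
      push_cast; field_simp
    have h3 : 1 / ((h : ℝ) * q) ≤ |(p : ℝ) / h - a / q| := by
      rw [h2, abs_div, abs_of_pos (by positivity : (0 : ℝ) < h * q)]; gcongr
    have h4 : 14 * (q : ℝ) ^ (-μ) ≤ 1 / (2 * ((h : ℝ) * q)) := by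
      rw [le_div_iff₀ (by positivity)]
      have e1 := rpow_split q μ hq0
      have e2 : 0 < (q : ℝ) ^ (-μ) := by positivity
      calc 14 * (q : ℝ) ^ (-μ) * (2 * (h * q)) = (q : ℝ) ^ (-μ) * ((28 * h) * q) := by ring
        _ ≤ (q : ℝ) ^ (-μ) * ((q : ℝ) ^ (μ - 1) * q) := by gcongr
        _ = 1 := e1
    have h5 : 1 / (2 * ((h : ℝ) * q)) ≤ |th μ R u - p / h| := by
      have e1 : (p : ℝ) / h - a / q = (th μ R u - a / q) - (th μ R u - p / h) := by ring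
      have e2 := abs_sub (th μ R u - a / q) (th μ R u - p / h)
      have e3 : |th μ R u - a / q| = th μ R u - a / q :=
        abs_of_nonneg (le_trans (by positivity) hb1)
      have e4 : 1 / ((h : ℝ) * q) = 1 / (2 * ((h : ℝ) * q)) + 1 / (2 * ((h : ℝ) * q)) := by
        field_simp; ring
      rw [← e1, e3] at e2
      linarith
    refine le_trans ?_ h5
    rw [Real.mul_rpow (by norm_num) hh0.le] at hk2
    have e1 := rpow_split h μ hh0
    rw [le_div_iff₀ (by positivity)]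
    have e3 : (0 : ℝ) < 28 ^ (μ - 1) := by positivity
    calc 1 / (2 * 28 ^ (μ - 1)) * (h : ℝ) ^ (-μ) * (2 * (h * q))
        ≤ 1 / (2 * 28 ^ (μ - 1)) * (h : ℝ) ^ (-μ) * (2 * (h * (28 ^ (μ - 1) * (h : ℝ) ^ (μ - 1)))) := by
          gcongr
      _ = (h : ℝ) ^ (-μ) * ((h : ℝ) ^ (μ - 1) * h) := by field_simp
      _ = 1 := e1

lemma th_freq (hμ : 4 ≤ μ) (hR : μ + 1 ≤ R) (hu : u ∈ Set.Icc (0 : ℝ) 1) :
    ∃ᶠ N : ℕ in atTop, (N : ℝ) ^ (1 - 1 / μ) / 160 ≤ ‖W (th μ R u) N‖ := by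
  have hR2 := R_ge hμ hR
  rw [frequently_atTop]
  intro K
  obtain ⟨k, hk1, hk2⟩ : ∃ k : ℕ, K ≤ k ∧ (25600 : ℝ) ≤ k := by
    obtain ⟨n, hn⟩ := exists_nat_ge (25600 : ℝ)
    refine ⟨K + n, by omega, ?_⟩
    push_cast
    have : (0 : ℝ) ≤ K := by positivity
    linarith
  obtain ⟨hb1, hb2⟩ := th_bounds hμ hR hu k
  have hcop := aa_cop μ R hR2 u k
  have hodd := qq_odd R k
  have hqk := qq_gt R k hR2
  set q := qq R k with hq
  set a := aa μ R u k with ha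
  have hrr : rr μ R u k = a / q := rfl
  rw [hrr] at hb1 hb2
  have hqbig : (25600 : ℝ) ≤ q := by
    have : (k : ℝ) ≤ q := by exact_mod_cast hqk.le
    linarith
  have hq0 : (0 : ℝ) < q := by linarith
  set t : ℝ := (q : ℝ) ^ (μ / 2) with ht
  have htq : (q : ℝ) ^ 2 ≤ t := by
    calc (q : ℝ) ^ 2 = (q : ℝ) ^ ((2 : ℕ) : ℝ) := (Real.rpow_natCast _ _).symm
      _ ≤ t := Real.rpow_le_rpow_of_exponent_le (by linarith) (by push_cast; linarith)
  have ht0 : 0 < t := by positivity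
  have htt : (q : ℝ) ^ (-μ) * t ^ 2 = 1 := by
    rw [ht, ← Real.rpow_natCast, ← Real.rpow_mul hq0.le, ← Real.rpow_add hq0]
    have : -μ + μ / 2 * ((2 : ℕ) : ℝ) = 0 := by push_cast; ring
    rw [this, Real.rpow_zero]
  set M := ⌊t / (20 * q)⌋₊ with hM
  have hx1 : 1 ≤ t / (20 * q) := by
    rw [le_div_iff₀ (by positivity)]; nlinarith
  have hM1 : (M : ℝ) ≤ t / (20 * q) := Nat.floor_le (by positivity)
  have hM2 : t / (20 * q) < M + 1 := Nat.lt_floor_add_one _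
  have hM3 : 1 ≤ M := Nat.le_floor (by simpa using hx1)
  have hM4 : (1 : ℝ) ≤ M := by exact_mod_cast hM3
  have hM5 : t / (40 * q) ≤ M := by
    have : t / (20 * q) = 2 * (t / (40 * q)) := by field_simp; ring
    linarith
  have hN : ((q * M : ℕ) : ℝ) ≤ t / 20 := by
    push_cast
    calc (q : ℝ) * M ≤ q * (t / (20 * q)) := by gcongr
      _ = t / 20 := by field_simp
  refine ⟨q * M, ?_, ?_⟩
  · calc K ≤ q := by omega
      _ = q * 1 := (mul_one _).symm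
      _ ≤ q * M := by gcongr
  have hβ : |th μ R u - a / q| * ((q * M : ℕ) : ℝ) ^ 2 * (4 * π) ≤ 1 := by
    rw [abs_of_nonneg (le_trans (by positivity) hb1)]
    have hpi : π ≤ 4 := Real.pi_le_four
    calc _ ≤ (14 * (q : ℝ) ^ (-μ)) * (t / 20) ^ 2 * (4 * 4) := by gcongr
      _ = (14 * 16 / 400) * ((q : ℝ) ^ (-μ) * t ^ 2) := by ring
      _ ≤ 1 := by rw [htt]; norm_num
  have hlow := lower (th μ R u) a q M hodd hcop hβ
  set s := Real.sqrt q with hs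
  have hss : s * s = q := Real.mul_self_sqrt hq0.le
  have hs160 : 160 ≤ s := by
    rw [hs]; exact Real.le_sqrt_of_sq_le (by linarith)
  have hs0 : 0 < s := by linarith
  have hμ0 : 0 < μ := by linarith
  have hα : 0 ≤ 1 - 1 / μ := by
    have : 1 / μ ≤ 1 := by rw [div_le_one hμ0]; linarith
    linarith
  have h1 : ((q * M : ℕ) : ℝ) ^ (1 - 1 / μ) ≤ t / s := by
    calc ((q * M : ℕ) : ℝ) ^ (1 - 1 / μ) ≤ t ^ (1 - 1 / μ) :=
          Real.rpow_le_rpow (by positivity) (by linarith) hα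
      _ = t / s := by
          rw [hs, Real.sqrt_eq_rpow, ht, ← Real.rpow_mul hq0.le, ← Real.rpow_sub hq0]
          congr 1; field_simp
  have h2 : t / s / 80 ≤ s * M / 2 := by
    have : t / s / 80 = s * (t / (40 * q)) / 2 := by rw [← hss]; field_simp; ring
    rw [this]; gcongr
  have h3 : (q : ℝ) ≤ t / s / 160 := by
    rw [le_div_iff₀ (by norm_num), le_div_iff₀ hs0]
    calc (q : ℝ) * 160 * s ≤ q * s * s := by gcongr
      _ = (q : ℝ) ^ 2 := by rw [mul_assoc, hss, sq]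
      _ ≤ t := htq
  have h4 : t / s / 80 = t / s / 160 + t / s / 160 := by ring
  linarith

lemma th_sep (hμ : 4 ≤ μ) (hR : μ + 1 ≤ R) {u v : ℝ} (hu : u ∈ Set.Icc (0 : ℝ) 1)
    (hv : v ∈ Set.Icc (0 : ℝ) 1) (huv : u < v) :
    (v - u) ^ (R * R) ≤ 3 ^ R * (th μ R v - th μ R u) := by
  classical
  have hR2 := R_ge hμ hR
  have hδ : 0 < v - u := by linarith
  have hδ1 : v - u ≤ 1 := by linarith [hu.1, hv.2]
  have hex : ∃ k, 1 ≤ (v - u) * qq R k := by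
    obtain ⟨k, hk⟩ := exists_nat_ge (1 / (v - u))
    refine ⟨k, ?_⟩
    have h1 : (k : ℝ) ≤ qq R k := by exact_mod_cast (qq_gt R k hR2).le
    rw [div_le_iff₀ hδ] at hk
    nlinarith
  set k := Nat.find hex with hk
  have hk1 : 1 ≤ (v - u) * qq R k := Nat.find_spec hex
  have hsep := aa_sep μ R huv.le k hk1
  obtain ⟨_, hb2⟩ := th_bounds hμ hR hu (k + 1)
  obtain ⟨hb1, _⟩ := th_bounds hμ hR hv (k + 1)
  have hq3 : (3 : ℝ) ≤ qq R (k + 1) := by exact_mod_cast qq_ge R (k + 1) (by omega)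
  have hmain : (v - u) ^ (R * R) * qq R (k + 1) ≤ 3 ^ R := by
    rcases Nat.eq_zero_or_pos k with h0 | h0
    · rw [h0]
      have h1 : (qq R (0 + 1) : ℝ) = 3 ^ R := by simp [qq]
      rw [h1]
      have : (v - u) ^ (R * R) ≤ 1 := pow_le_one₀ hδ.le hδ1
      have h3 : (0 : ℝ) < 3 ^ R := by positivity
      nlinarith
    · obtain ⟨j, hj⟩ : ∃ j, k = j + 1 := ⟨k - 1, by omega⟩
      have h1 := Nat.find_min hex (show j < Nat.find hex by omega)
      rw [not_le] at h1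
      rw [hj, qq_succ, qq_succ]; push_cast
      rw [← pow_mul, ← mul_pow]
      calc ((v - u) * qq R j) ^ (R * R) ≤ 1 := pow_le_one₀ (by positivity) h1.le
        _ ≤ 3 ^ R := one_le_pow₀ (by norm_num)
  set q : ℝ := (qq R (k + 1) : ℝ) with hq
  have hq0 : 0 < q := by linarith
  have h1 : rr μ R u (k + 1) + 3 / q ≤ rr μ R v (k + 1) := by
    unfold rr
    rw [← hq, ← add_div]
    gcongr
    exact_mod_cast hsep
  have h2 : 14 * q ^ (-μ) ≤ 2 / q := by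
    rw [le_div_iff₀ hq0]
    have e1 := rpow_split q μ hq0
    have e2 : 0 < q ^ (-μ) := by positivity
    have e3 : 7 ≤ q ^ (μ - 1) := by
      calc (7 : ℝ) ≤ q ^ 2 := by nlinarith
        _ = q ^ ((2 : ℕ) : ℝ) := (Real.rpow_natCast _ _).symm
        _ ≤ _ := Real.rpow_le_rpow_of_exponent_le (by linarith) (by push_cast; linarith)
    calc 14 * q ^ (-μ) * q = 2 * (q ^ (-μ) * (7 * q)) := by ring
      _ ≤ 2 * (q ^ (-μ) * (q ^ (μ - 1) * q)) := by gcongr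
      _ = 2 := by rw [e1]; ring
  have h3 : 1 / q ≤ th μ R v - th μ R u := by
    have e2 : 0 < q ^ (-μ) := by positivity
    have e3 : 3 / q = 1 / q + 2 / q := by ring
    linarith
  calc (v - u) ^ (R * R) ≤ 3 ^ R * (1 / q) := by
        rw [mul_one_div, le_div_iff₀ hq0]; exact hmain
    _ ≤ _ := by gcongr

end

end Pool.Agent.H.MP_3c4aa6_nt
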