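import Pool.Agent.H.MP_3c4aa6_nt.C

namespace Pool.Agent.H.MP_3c4aa6_nt

open Finset Real Filter

lemma limsup_eq (f : ℕ → ℝ) (hf : ∀ N, 0 ≤ f N) (α C : ℝ) (hα : 0 ≤ α) (hC : 0 < C)
    (hup : ∀ N : ℕ, 1 ≤ N → f N ^ 2 ≤ C * (N : ℝ) ^ (2 * α) * (1 + Real.log N))
    (hlow : ∃ᶠ N : ℕ in atTop, (N : ℝ) ^ α / 160 ≤ f N) :
    limsup (fun N : ℕ => Real.log (f N) / Real.log N) atTop = α := by
  have hpow : ∀ ε : ℝ, 0 < ε → ∀ B : ℝ, ∀ᶠ N : ℕ in atTop, B ≤ (N : ℝ) ^ ε := fun ε hε B =>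
    ((tendsto_rpow_atTop hε).comp tendsto_natCast_atTop_atTop).eventually_ge_atTop B
  have hU : ∀ ε : ℝ, 0 < ε → ∀ᶠ N : ℕ in atTop, Real.log (f N) / Real.log N ≤ α + ε := by
    intro ε hε
    filter_upwards [hpow ε hε (C * (1 + 1 / ε)), eventually_ge_atTop 2] with N hN hN2
    have hN1 : (1 : ℝ) < N := by exact_mod_cast hN2
    have hN0 : (0 : ℝ) < N := by linarith
    have hlog : 0 < Real.log N := Real.log_pos hN1
    rw [div_le_iff₀ hlog]
    have h1 : (1 : ℝ) ≤ (N : ℝ) ^ ε := Real.one_le_rpow hN1.le hε.le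
    have h2 : Real.log N ≤ (N : ℝ) ^ ε / ε := Real.log_le_rpow_div hN0.le hε
    have h3 : 1 + Real.log N ≤ (1 + 1 / ε) * (N : ℝ) ^ ε := by
      have : (1 + 1 / ε) * (N : ℝ) ^ ε = (N : ℝ) ^ ε + (N : ℝ) ^ ε / ε := by ring
      linarith
    have h4 : f N ^ 2 ≤ ((N : ℝ) ^ (α + ε)) ^ 2 := by
      calc f N ^ 2 ≤ C * (N : ℝ) ^ (2 * α) * (1 + Real.log N) := hup N (by omega)
        _ ≤ C * (N : ℝ) ^ (2 * α) * ((1 + 1 / ε) * (N : ℝ) ^ ε) := by gcongr
        _ = (C * (1 + 1 / ε)) * ((N : ℝ) ^ (2 * α) * (N : ℝ) ^ ε) := by ring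
        _ ≤ (N : ℝ) ^ ε * ((N : ℝ) ^ (2 * α) * (N : ℝ) ^ ε) := by gcongr
        _ = ((N : ℝ) ^ (α + ε)) ^ 2 := by
            rw [← Real.rpow_add hN0, ← Real.rpow_add hN0, ← Real.rpow_natCast,
              ← Real.rpow_mul hN0.le]
            congr 1; push_cast; ring
    have h5 : f N ≤ (N : ℝ) ^ (α + ε) := by
      exact (pow_le_pow_iff_left₀ (hf N) (by positivity) (by norm_num)).mp h4
    rcases (hf N).eq_or_lt with h0 | h0
    · rw [← h0, Real.log_zero]; positivity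
    · calc Real.log (f N) ≤ Real.log ((N : ℝ) ^ (α + ε)) := Real.log_le_log h0 h5
        _ = _ := Real.log_rpow hN0 _
  have hL : ∀ ε : ℝ, 0 < ε → ∃ᶠ N : ℕ in atTop, α - ε ≤ Real.log (f N) / Real.log N := by
    intro ε hε
    refine (hlow.and_eventually ((hpow ε hε 160).and (eventually_ge_atTop 2))).mono ?_
    rintro N ⟨h1, h2, hN2⟩
    have hN1 : (1 : ℝ) < N := by exact_mod_cast hN2
    have hN0 : (0 : ℝ) < N := by linarith
    have hlog : 0 < Real.log N := Real.log_pos hN1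
    rw [le_div_iff₀ hlog, ← Real.log_rpow hN0]
    refine Real.log_le_log (by positivity) (le_trans ?_ h1)
    rw [Real.rpow_sub hN0]
    gcongr
  have hcob : IsCoboundedUnder (· ≤ ·) atTop (fun N : ℕ => Real.log (f N) / Real.log N) :=
    IsCoboundedUnder.of_frequently_ge (hL 1 one_pos)
  have hb : IsBoundedUnder (· ≤ ·) atTop (fun N : ℕ => Real.log (f N) / Real.log N) :=
    ⟨α + 1, hU 1 one_pos⟩
  refine le_antisymm (le_of_forall_pos_le_add fun ε hε => limsup_le_of_le hcob (hU ε hε)) ?_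
  refine le_of_forall_pos_le_add fun ε hε => ?_
  have := le_limsup_of_frequently_le (hL ε hε) hb
  linarith

lemma dim_pos (g : ℝ → ℝ) (n : ℕ) (hn : 0 < n) (K : ℝ) (hK : 0 < K)
    (hg : ∀ u ∈ Set.Icc (0 : ℝ) 1, ∀ v ∈ Set.Icc (0 : ℝ) 1, u < v → (v - u) ^ n ≤ K * (g v - g u)) :
    0 < dimH (g '' Set.Icc (0 : ℝ) 1) := by
  classical
  have hall : ∀ u ∈ Set.Icc (0 : ℝ) 1, ∀ v ∈ Set.Icc (0 : ℝ) 1, |u - v| ^ n ≤ K * |g u - g v| := by
    intro u hu v hv
    rcases lt_trichotomy u v with h | h | h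
    · rw [abs_sub_comm, abs_of_pos (sub_pos.mpr h), abs_sub_comm]
      exact (hg u hu v hv h).trans (by gcongr; exact le_abs_self _)
    · rw [h]; simp [hn.ne']
    · rw [abs_of_pos (sub_pos.mpr h)]
      exact (hg v hv u hu h).trans (by gcongr; exact le_abs_self _)
  have hinj : Set.InjOn g (Set.Icc (0 : ℝ) 1) := by
    intro u hu v hv h
    have := hall u hu v hv
    rw [h, sub_self, abs_zero, mul_zero] at this
    have h2 : |u - v| ^ n = 0 := le_antisymm this (by positivity)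
    have h3 := pow_eq_zero_iff (hn.ne') |>.mp h2
    linarith [abs_eq_zero.mp h3]
  let f := Function.invFunOn g (Set.Icc (0 : ℝ) 1)
  have hf : ∀ u ∈ Set.Icc (0 : ℝ) 1, f (g u) = u := fun u hu => hinj.leftInvOn_invFunOn hu
  have hnR : (0 : ℝ) < n := by exact_mod_cast hn
  let r : NNReal := ⟨1 / n, by positivity⟩
  let C : NNReal := ⟨K ^ (1 / (n : ℝ)), by positivity⟩
  have hH : HolderOnWith C r f (g '' Set.Icc (0 : ℝ) 1) := by
    rintro _ ⟨u, hu, rfl⟩ _ ⟨v, hv, rfl⟩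
    rw [hf u hu, hf v hv, edist_dist, edist_dist, Real.dist_eq, Real.dist_eq,
      ENNReal.ofReal_rpow_of_nonneg (abs_nonneg _) r.coe_nonneg, ← ENNReal.ofReal_coe_nnreal,
      ← ENNReal.ofReal_mul C.coe_nonneg]
    refine ENNReal.ofReal_le_ofReal ?_
    have h1 := Real.rpow_le_rpow (by positivity) (hall u hu v hv)
      (by positivity : (0 : ℝ) ≤ 1 / (n : ℝ))
    rw [Real.mul_rpow hK.le (abs_nonneg _), one_div, Real.pow_rpow_inv_natCast (abs_nonneg _) hn.ne',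
      ← one_div] at h1
    exact h1
  have hr : 0 < r := by
    show (0 : ℝ) < 1 / n
    positivity
  have h1 := hH.dimH_image_le hr
  have h2 : f '' (g '' Set.Icc (0 : ℝ) 1) = Set.Icc (0 : ℝ) 1 := by
    rw [Set.image_image]
    exact (Set.image_congr hf).trans (Set.image_id _)
  have h3 : dimH (Set.Icc (0 : ℝ) 1) = 1 := by
    have := Real.dimH_of_mem_nhds (E := ℝ) (x := 1 / 2) (s := Set.Icc (0 : ℝ) 1)
      (Icc_mem_nhds (by norm_num) (by norm_num))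
    simpa using this
  rw [h2, h3] at h1
  by_contra h0
  rw [not_lt, nonpos_iff_eq_zero] at h0
  rw [h0] at h1
  simp at h1

theorem main (α : ℝ) (h1 : 3 / 4 ≤ α) (h2 : α < 1) :
    0 < dimH {θ : ℝ | θ ∈ Set.Ico (0 : ℝ) 1 ∧
      limsup (fun N : ℕ => Real.log ‖W θ N‖ / Real.log N) atTop = α} := by
  set μ := 1 / (1 - α) with hμd
  have h3 : 0 < 1 - α := by linarith
  have hμ : 4 ≤ μ := by rw [hμd, le_div_iff₀ h3]; linarith
  have hαμ : 1 - 1 / μ = α := by rw [hμd, one_div_one_div]; ring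
  set R := ⌈μ⌉₊ + 1 with hRd
  have hR : μ + 1 ≤ R := by rw [hRd]; push_cast; linarith [Nat.le_ceil μ]
  have hR' : (R : ℝ) ≤ (μ - 1) * (μ - 1) := by
    rw [hRd]; push_cast
    have := Nat.ceil_lt_add_one (by linarith : 0 ≤ μ)
    nlinarith
  have hRpos : 0 < R := by omega
  refine lt_of_lt_of_le (dim_pos (th μ R) (R * R) (by positivity) (3 ^ R) (by positivity)
    fun u hu v hv huv => th_sep hμ hR hu hv huv) (dimH_mono ?_)
  rintro _ ⟨u, hu, rfl⟩
  refine ⟨th_mem hμ hR hu, ?_⟩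
  obtain ⟨C, hC, hup⟩ := upper (th μ R u) μ _ (by linarith) (by positivity)
    (fun h p hh => th_dio hμ hR hR' hu h p hh)
  have hfr := th_freq hμ hR hu
  rw [hαμ] at hup hfr
  exact limsup_eq (fun N => ‖W (th μ R u) N‖) (fun N => norm_nonneg _) α C (by linarith) hC hup hfr

end Pool.Agent.H.MP_3c4aa6_nt
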